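import Pool.Agent.N343.LT.Stm2

/-!
# LT-RNG: the complete multipartite graph minus a perfect matching as a blow-up of the `2r`-cycle
-/

set_option autoImplicit false

namespace Pool.Agent.N849.LT.RNG

open Pool.Agent.N343.LT.Defs

section
variable {r : ℕ}

theorem par_cast {a b : ℕ} (h : (a : ZMod (2 * r)) = b) : a % 2 = b % 2 := by
  rw [ZMod.natCast_eq_natCast_iff] at h
  exact Nat.ModEq.of_mul_right r h

theorem par_add_one [NeZero r] (c : ZMod (2 * r)) : (c + 1).val % 2 = (c.val + 1) % 2 := by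
  have : NeZero (2 * r) := ⟨Nat.mul_ne_zero two_ne_zero (NeZero.ne r)⟩
  apply par_cast (r := r)
  rw [ZMod.natCast_zmod_val]
  push_cast
  rw [ZMod.natCast_zmod_val]

theorem pairing_odd {c : ZMod (2 * r)} (h : c.val % 2 = 1) : pairing r c = c + 1 := if_pos h

theorem pairing_even {c : ZMod (2 * r)} (h : c.val % 2 = 0) : pairing r c = c - 1 :=
  if_neg (by omega)

theorem invol [NeZero r] (c : ZMod (2 * r)) : pairing r (pairing r c) = c := by
  rcases Nat.mod_two_eq_zero_or_one c.val with h | h
  · rw [pairing_even h]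
    have h1 := par_add_one (r := r) (c - 1)
    rw [sub_add_cancel, h] at h1
    rw [pairing_odd (by omega), sub_add_cancel]
  · rw [pairing_odd h]
    have h1 := par_add_one (r := r) c
    rw [pairing_even (by omega), add_sub_cancel_right]

theorem near_iff (c d : ZMod (2 * r)) : Near 1 c d ↔ c = d ∨ d = c + 1 ∨ c = d + 1 := by
  constructor
  · rintro ⟨j, hj, h⟩
    have hj' : j = 0 ∨ j = 1 := by omega
    rcases hj' with rfl | rfl
    · rw [Nat.cast_zero, add_zero, add_zero] at h
      rcases h with h | h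
      · exact Or.inl h.symm
      · exact Or.inl h
    · rw [Nat.cast_one] at h
      exact Or.inr h
  · rintro (h | h)
    · exact ⟨0, by omega, Or.inl (by rw [Nat.cast_zero, add_zero]; exact h.symm)⟩
    · exact ⟨1, le_rfl, by rw [Nat.cast_one]; exact h⟩

theorem near_pairing (c : ZMod (2 * r)) : Near 1 c (pairing r c) := by
  rw [near_iff]
  rcases Nat.mod_two_eq_zero_or_one c.val with h | h
  · rw [pairing_even h]
    exact Or.inr (Or.inr (sub_add_cancel _ _).symm)
  · rw [pairing_odd h]
    exact Or.inr (Or.inl rfl)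

/-- the value of a bit -/
def bv (b : Bool) : ℕ := if b = true then 1 else 0

theorem bv_lt (b : Bool) : bv b < 2 := by cases b <;> decide

/-- the vertex of the cycle -/
def cl (i : ZMod r) (b : Bool) : ZMod (2 * r) := ((2 * i.val + bv b : ℕ) : ZMod (2 * r))

theorem cl_val [NeZero r] (i : ZMod r) (b : Bool) : (cl i b).val = 2 * i.val + bv b := by
  unfold cl
  apply ZMod.val_natCast_of_lt
  have := ZMod.val_lt i
  have := bv_lt b
  omega

theorem cl_eq [NeZero r] (i j : ZMod r) (b b' : Bool) : cl i b = cl j b' ↔ i = j ∧ b = b' := by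
  constructor
  · intro h
    have h1 := congrArg ZMod.val h
    rw [cl_val, cl_val] at h1
    have h2 := bv_lt b
    have h3 := bv_lt b'
    have h4 : i.val = j.val := by omega
    have h5 : bv b = bv b' := by omega
    refine ⟨ZMod.val_injective r h4, ?_⟩
    cases b <;> cases b' <;> simp_all [bv]
  · rintro ⟨rfl, rfl⟩
    rfl

theorem next_iff [NeZero r] (i j : ZMod r) (b b' : Bool) : cl j b' = cl i b + 1 ↔
    (b = false ∧ b' = true ∧ i = j) ∨ (b = true ∧ b' = false ∧ j = i + 1) := by
  have hb1 : cl i b + 1 = ((2 * i.val + bv b + 1 : ℕ) : ZMod (2 * r)) := by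
    unfold cl
    push_cast
    ring
  cases b with
  | false =>
    have h1 : cl i false + 1 = cl i true := by
      rw [hb1]
      rfl
    rw [h1, cl_eq]
    constructor
    · rintro ⟨h2, h3⟩
      exact Or.inl ⟨rfl, h3, h2.symm⟩
    · rintro (⟨-, h3, h2⟩ | ⟨h, -⟩)
      · exact ⟨h2.symm, h3⟩
      · exact absurd h (by decide)
  | true =>
    have key : ((2 * j.val : ℕ) : ZMod (2 * r)) = ((2 * (i.val + 1) : ℕ) : ZMod (2 * r)) ↔
        j = i + 1 := by
      rw [ZMod.natCast_eq_natCast_iff, Nat.ModEq.mul_left_cancel_iff' two_ne_zero,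
        ← ZMod.natCast_eq_natCast_iff]
      push_cast
      rw [ZMod.natCast_zmod_val, ZMod.natCast_zmod_val]
    have h1 : cl i true + 1 = ((2 * (i.val + 1) : ℕ) : ZMod (2 * r)) := by
      rw [hb1]
      congr 1
    rw [h1]
    cases b' with
    | false =>
      have h2 : cl j false = ((2 * j.val : ℕ) : ZMod (2 * r)) := rfl
      rw [h2, key]
      constructor
      · exact fun h => Or.inr ⟨rfl, rfl, h⟩
      · rintro (⟨h, -⟩ | ⟨-, -, h⟩)
        · exact absurd h (by decide)
        · exact h
    | true =>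
      constructor
      · intro h
        have h3 := par_cast (r := r) (a := 2 * j.val + bv true) (b := 2 * (i.val + 1)) h
        have h4 : bv true = 1 := rfl
        omega
      · rintro (⟨h, -⟩ | ⟨-, h, -⟩)
        · exact absurd h (by decide)
        · exact absurd h (by decide)

theorem pairing_iff [NeZero r] (i j : ZMod r) (b b' : Bool) : cl j b' = pairing r (cl i b) ↔
    (b = true ∧ b' = false ∧ j = i + 1) ∨ (b = false ∧ b' = true ∧ i = j + 1) := by
  cases b with
  | false =>
    rw [pairing_even (by rw [cl_val]; have : bv false = 0 := rfl; omega), eq_sub_iff_add_eq,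
      eq_comm, next_iff]
    constructor
    · rintro (⟨h1, h2, h3⟩ | ⟨h1, h2, h3⟩)
      · exact absurd h2 (by decide)
      · exact Or.inr ⟨rfl, h1, h3⟩
    · rintro (⟨h1, h2, h3⟩ | ⟨h1, h2, h3⟩)
      · exact absurd h1 (by decide)
      · exact Or.inr ⟨h2, rfl, h3⟩
  | true =>
    rw [pairing_odd (by rw [cl_val]; have : bv true = 1 := rfl; omega), next_iff]
    constructor
    · rintro (⟨h1, h2, h3⟩ | ⟨h1, h2, h3⟩)
      · exact absurd h1 (by decide)
      · exact Or.inl ⟨rfl, h2, h3⟩
    · rintro (⟨h1, h2, h3⟩ | ⟨h1, h2, h3⟩)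
      · exact Or.inr ⟨rfl, h2, h3⟩
      · exact absurd h1 (by decide)

/-- the bijection -/
def eq [NeZero r] (m : ℕ) : ZMod r × (Bool × Fin m) ≃ ZMod (2 * r) × Fin m where
  toFun x := (cl x.1 x.2.1, x.2.2)
  invFun y := (((y.1.val / 2 : ℕ) : ZMod r), (decide (y.1.val % 2 = 1), y.2))
  left_inv := by
    rintro ⟨i, b, s⟩
    have h2 := bv_lt b
    refine Prod.ext ?_ (Prod.ext ?_ rfl)
    · show (((cl i b).val / 2 : ℕ) : ZMod r) = i
      rw [cl_val]
      have h1 : (2 * i.val + bv b) / 2 = i.val := by omega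
      rw [h1, ZMod.natCast_zmod_val]
    · show decide ((cl i b).val % 2 = 1) = b
      rw [cl_val]
      have h1 : (2 * i.val + bv b) % 2 = bv b := by omega
      rw [h1]
      cases b <;> decide
  right_inv := by
    rintro ⟨c, s⟩
    refine Prod.ext ?_ rfl
    show cl ((c.val / 2 : ℕ) : ZMod r) (decide (c.val % 2 = 1)) = c
    have : NeZero (2 * r) := ⟨Nat.mul_ne_zero two_ne_zero (NeZero.ne r)⟩
    apply ZMod.val_injective
    rw [cl_val]
    have h1 : ((c.val / 2 : ℕ) : ZMod r).val = c.val / 2 := by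
      apply ZMod.val_natCast_of_lt
      have := ZMod.val_lt c
      omega
    rw [h1]
    have h2 : bv (decide (c.val % 2 = 1)) = c.val % 2 := by
      rcases Nat.mod_two_eq_zero_or_one c.val with h | h <;> rw [h] <;> rfl
    rw [h2]
    omega

end

theorem main : Pool.Agent.N343.LT.S_RNG := by
  intro r m hr
  have : NeZero r := ⟨by omega⟩
  have h1r : Fact (1 < r) := ⟨by omega⟩
  refine ⟨invol, near_pairing, eq m, ?_⟩
  rintro ⟨i, b, s⟩ ⟨j, b', t⟩
  have hij : ¬ (i = j ∧ j = i + 1) := by
    rintro ⟨rfl, h⟩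
    have h1 : (1 : ZMod r) = 0 := by
      have h2 : i + 1 = i + 0 := by rw [add_zero]; exact h.symm
      exact add_left_cancel h2
    exact one_ne_zero h1
  have hij' : ¬ (i = j ∧ i = j + 1) := by
    rintro ⟨rfl, h⟩
    exact hij ⟨rfl, h⟩
  show (i ≠ j ∧ ¬ (j = i + 1 ∧ b = true ∧ b' = false ∧ s = t) ∧
      ¬ (i = j + 1 ∧ b' = true ∧ b = false ∧ t = s)) ↔
    ((cl j b' = pairing r (cl i b) ∧ cl i b = pairing r (cl j b') ∧ s ≠ t) ∨
      ¬ Near 1 (cl i b) (cl j b'))
  rw [near_iff, pairing_iff, pairing_iff, next_iff, next_iff, cl_eq, eq_comm (a := t)]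
  cases b <;> cases b' <;> simp only [reduceCtorEq, true_and, false_and, and_false, and_true,
    or_false, false_or, not_false_eq_true, ne_eq, eq_comm (a := j) (b := i), not_or]
  all_goals tauto

end Pool.Agent.N849.LT.RNG
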